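import Pool.Agent.MP_937632_gt.Config
import Pool.Agent.MP_937632_gt.h13.Tube

set_option autoImplicit false

open scoped ContDiff InnerProductSpace

namespace Pool.Agent.Results.MP_937632_gt.Dichotomy

open Pool.Agent.MP_937632_gt

/-- For `N ≥ 2` the statement of the question holds in `ℝ^N` exactly when `N = 2`. -/
theorem result (N : ℕ) (hN : 2 ≤ N) :
    (∀ γ : ℝ → EuclideanSpace ℝ (Fin N),
      ContDiff ℝ ∞ γ → Function.Periodic γ 1 → Set.InjOn γ (Set.Ico 0 1) →
      (∀ t, deriv γ t ≠ 0) →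
      ∃ β₀ : ℝ, 0 < β₀ ∧ ∀ β : ℝ, 0 < β → β < β₀ → ∃ δ : ℝ, 0 < δ ∧
        ∀ S : Set (EuclideanSpace ℝ (Fin N)), S.Finite → S.Nonempty →
          Metric.hausdorffDist S (Set.range γ) < δ →
          Nonempty (ContinuousMap.HomotopyEquiv (shadow β S) (Set.range γ))) ↔ N = 2 := by
  constructor
  · intro h
    by_contra hne
    have h3 : 3 ≤ N := by omega
    let φ : Frame (EuclideanSpace ℝ (Fin N)) :=
      { e₀ := EuclideanSpace.single ⟨0, by omega⟩ 1
        e₁ := EuclideanSpace.single ⟨1, by omega⟩ 1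
        e₂ := EuclideanSpace.single ⟨2, by omega⟩ 1
        n₀ := by simp
        n₁ := by simp
        n₂ := by simp
        o₀₁ := by simp [EuclideanSpace.inner_single_left]
        o₀₂ := by simp [EuclideanSpace.inner_single_left]
        o₁₂ := by simp [EuclideanSpace.inner_single_left] }
    obtain ⟨β₀, h0, h⟩ := h φ.curve φ.contDiff_curve φ.periodic_curve φ.injOn_curve
      φ.deriv_curve_ne_zero
    have hβ : 0 < min (β₀ / 2) (1 / 2) := lt_min (by linarith) (by norm_num)
    obtain ⟨δ, hδ, h⟩ := h _ hβ ((min_le_left _ _).trans_lt (by linarith))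
    obtain ⟨S, s1, s2, s3, s4⟩ := φ.exists_sample hβ (min_le_right _ _) hδ
    exact s4.false (h S s1 s2 s3).some
  · rintro rfl γ h1 h2 h3 h4
    obtain ⟨β₀, h0, h⟩ := Plane.planar h1 h2 h3 h4
    exact ⟨β₀, h0, fun β a b => ⟨β / 100, by linarith, h β a b⟩⟩

end Pool.Agent.Results.MP_937632_gt.Dichotomy
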