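import Mathlib
import Pool.Agent.MP_937632_gt.Config

set_option autoImplicit false

open scoped ContDiff InnerProductSpace

namespace Pool.Agent.Results.MP_937632_gt.ShadowCavity

open Pool.Agent.MP_937632_gt

/-- For every `N ≥ 3` there is a smooth simple closed curve `M` in `ℝ^N` such that for every
`β ∈ (0, 1/2]` and every `δ > 0` some finite sample `S` within Hausdorff distance `δ` of `M` has
a Vietoris-Rips shadow that is not homotopy equivalent to `M`. -/
theorem result (N : ℕ) (hN : 3 ≤ N) :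
    ∃ γ : ℝ → EuclideanSpace ℝ (Fin N),
      ContDiff ℝ ∞ γ ∧ Function.Periodic γ 1 ∧ Set.InjOn γ (Set.Ico 0 1) ∧
      (∀ t, deriv γ t ≠ 0) ∧
      ∀ β : ℝ, 0 < β → β ≤ 1 / 2 → ∀ δ : ℝ, 0 < δ →
        ∃ S : Set (EuclideanSpace ℝ (Fin N)), S.Finite ∧ S.Nonempty ∧
          Metric.hausdorffDist S (Set.range γ) < δ ∧
          IsEmpty (ContinuousMap.HomotopyEquiv (shadow β S) (Set.range γ)) := by
  let φ : Frame (EuclideanSpace ℝ (Fin N)) :=
    { e₀ := EuclideanSpace.single ⟨0, by omega⟩ 1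
      e₁ := EuclideanSpace.single ⟨1, by omega⟩ 1
      e₂ := EuclideanSpace.single ⟨2, by omega⟩ 1
      n₀ := by simp
      n₁ := by simp
      n₂ := by simp
      o₀₁ := by simp [EuclideanSpace.inner_single_left]
      o₀₂ := by simp [EuclideanSpace.inner_single_left]
      o₁₂ := by simp [EuclideanSpace.inner_single_left] }
  exact ⟨φ.curve, φ.contDiff_curve, φ.periodic_curve, φ.injOn_curve, φ.deriv_curve_ne_zero,
    fun β hβ hβ' δ hδ => φ.exists_sample hβ hβ' hδ⟩

end Pool.Agent.Results.MP_937632_gt.ShadowCavity
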